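import Pool.Agent.N733.TW.C
import Pool.Agent.H297R2.InBakerThm

/-!
# Groups generated by numbers which are multiplicatively independent modulo the algebraic numbers
-/

set_option autoImplicit false

namespace Pool.Agent.N733.TW

open Pool.Agent.H301R2.SSE Finset
open scoped Pointwise

/-- **Gelfond–Schneider** -/
theorem gs {c l : ℂ} (hc : IsAlgebraic ℚ c) (hci : ∀ r : ℚ, c ≠ r) (hl0 : l ≠ 0)
    (hexp : IsAlgebraic ℚ (Complex.exp l)) : Transcendental ℚ (Complex.exp (c * l)) := by
  intro h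
  have hli : LinearIndependent ℚ ![l, c * l] := by
    rw [LinearIndependent.pair_iff]
    intro s t hst
    have h1 : ((s : ℂ) + t * c) * l = 0 := by
      rw [← hst, Rat.smul_def, Rat.smul_def]; ring
    have h2 : (s : ℂ) + t * c = 0 := by
      rcases mul_eq_zero.mp h1 with h2 | h2
      · exact h2
      · exact absurd h2 hl0
    by_cases ht : t = 0
    · subst ht
      refine ⟨?_, rfl⟩
      simpa using h2
    · exfalso
      apply hci (-s / t)
      have ht' : (t : ℂ) ≠ 0 := by exact_mod_cast ht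
      push_cast
      field_simp
      linear_combination h2
  have := Pool.Agent.H297R2.baker_inhom ![l, c * l] (by
    intro i
    fin_cases i
    · exact hexp
    · exact h) hli 0 isAlgebraic_zero ![c, -1] (by
    intro i
    fin_cases i
    · exact hc
    · exact isAlgebraic_one.neg) (by
    rw [Fin.sum_univ_two]
    simp)
  have := this.2 1
  simp at this

/-- the element of the group with rational exponents `b` -/
noncomputable def El {r : ℕ} (lam : Fin r → ℂ) (b : Fin r → ℚ) : ℂ :=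
  Complex.exp (∑ i, (b i : ℂ) * lam i)

theorem El_add {r : ℕ} (lam : Fin r → ℂ) (a b : Fin r → ℚ) :
    El lam (a + b) = El lam a * El lam b := by
  unfold El
  rw [← Complex.exp_add, ← sum_add_distrib]
  congr 1
  refine sum_congr rfl fun i _ => ?_
  rw [Pi.add_apply]
  push_cast
  ring

theorem El_ne {r : ℕ} (lam : Fin r → ℂ) (a : Fin r → ℚ) : El lam a ≠ 0 := Complex.exp_ne_zero _

/-- integral exponents suffice -/
theorem El_tr {r : ℕ} (lam : Fin r → ℂ)
    (h : ∀ m : Fin r → ℤ, m ≠ 0 → Transcendental ℚ (Complex.exp (∑ i, (m i : ℂ) * lam i)))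
    (b : Fin r → ℚ) (hb : b ≠ 0) : Transcendental ℚ (El lam b) := by
  classical
  intro hal
  set D : ℕ := ∏ i, (b i).den with hD
  have hD0 : D ≠ 0 := prod_ne_zero_iff.2 fun i _ => (b i).den_nz
  have hm : ∀ i, ∃ m : ℤ, (m : ℚ) = D * b i := by
    intro i
    have h1 : (b i).den ∣ D := dvd_prod_of_mem (fun i => (b i).den) (mem_univ i)
    obtain ⟨k, hk⟩ := h1
    refine ⟨k * (b i).num, ?_⟩
    rw [hk]
    push_cast
    have := Rat.mul_den_eq_num (b i)
    linear_combination (-(k : ℚ)) * this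
  choose m hm using hm
  have hm0 : m ≠ 0 := by
    intro h0
    apply hb
    funext i
    have h1 := hm i
    rw [h0] at h1
    have h2 : (D : ℚ) * b i = 0 := by rw [← h1]; simp
    exact (mul_eq_zero.1 h2).resolve_left (by exact_mod_cast hD0)
  apply h m hm0
  have h3 : Complex.exp (∑ i, (m i : ℂ) * lam i) = El lam b ^ D := by
    unfold El
    rw [← Complex.exp_nat_mul, mul_sum]
    congr 1
    refine sum_congr rfl fun i _ => ?_
    have h4 : (m i : ℂ) = D * (b i : ℂ) := by
      have := congrArg (fun q : ℚ => (q : ℂ)) (hm i)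
      simpa using this
    rw [h4, mul_assoc]
  rw [h3]
  exact hal.pow D

/-- **Structure.** -/
theorem few_El {r : ℕ} (lam : Fin r → ℂ)
    (h : ∀ m : Fin r → ℤ, m ≠ 0 → Transcendental ℚ (Complex.exp (∑ i, (m i : ℂ) * lam i)))
    (x₁ x₂ v : ℂ) (hx : x₁ ≠ 0) (hx12 : Transcendental ℚ (x₂ / x₁)) (hv : v ≠ 0) :
    {b : Fin r → ℚ | x₁ * (v * El lam b) ∈ Lt ∧ x₂ * (v * El lam b) ∈ Lt}.encard ≤ r + 1 := by
  classical
  by_contra hcon
  push Not at hcon
  have h2 : ((r + 2 : ℕ) : ℕ∞) ≤
      {b : Fin r → ℚ | x₁ * (v * El lam b) ∈ Lt ∧ x₂ * (v * El lam b) ∈ Lt}.encard := by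
    have := Order.add_one_le_of_lt hcon
    refine le_trans (le_of_eq ?_) this
    push_cast
    ring
  obtain ⟨t, ht, htc⟩ := Set.exists_subset_encard_eq h2
  have hfin : t.Finite := Set.finite_of_encard_eq_coe htc
  have hcard : hfin.toFinset.card = r + 2 := by
    have h3 := hfin.encard_eq_coe_toFinset_card
    rw [htc] at h3
    exact_mod_cast h3.symm
  set e := hfin.toFinset.equivFinOfCardEq hcard with he
  refine few (El lam) (El_add lam) (El_ne lam) (El_tr lam h) r (rel r) x₁ x₂ v hx hx12 hv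
    (fun i => (e.symm i : Fin r → ℚ)) (fun i j hij => e.symm.injective (Subtype.ext hij)) ?_ ?_
  · intro i
    exact (ht (hfin.mem_toFinset.1 (e.symm i).2)).1
  · intro i
    exact (ht (hfin.mem_toFinset.1 (e.symm i).2)).2

/-- **Counting.** -/
theorem count_El {r : ℕ} (lam : Fin r → ℂ)
    (h : ∀ m : Fin r → ℤ, m ≠ 0 → Transcendental ℚ (Complex.exp (∑ i, (m i : ℂ) * lam i)))
    (v : ℂ) (hv : v ≠ 0) (P B : Finset (Fin r → ℚ)) (hPB : P ⊆ B)
    (hP : ∀ b ∈ P, v * El lam b ∈ Lt) :
    P.card ^ 2 ≤ P.card + (r + 1) * ((B - B).card - 1) := by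
  have := count (El lam) (El_add lam) (El_ne lam) (El_tr lam h) r (rel r) v hv P B hPB hP
  rw [sq]
  convert this using 4

/-- powers of multiplicatively independent algebraic numbers with an irrational exponent -/
theorem gs_family {r : ℕ} (l : Fin r → ℂ) (c : ℂ) (hc : IsAlgebraic ℚ c) (hci : ∀ r : ℚ, c ≠ r)
    (hl : ∀ i, IsAlgebraic ℚ (Complex.exp (l i)))
    (hind : ∀ m : Fin r → ℤ, m ≠ 0 → ∑ i, (m i : ℂ) * l i ≠ 0) (m : Fin r → ℤ) (hm : m ≠ 0) :
    Transcendental ℚ (Complex.exp (∑ i, (m i : ℂ) * (c * l i))) := by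
  have h1 : ∑ i, (m i : ℂ) * (c * l i) = c * ∑ i, (m i : ℂ) * l i := by
    rw [mul_sum]
    refine sum_congr rfl fun i _ => ?_
    ring
  rw [h1]
  refine gs hc hci (hind m hm) ?_
  rw [Complex.exp_sum]
  refine prod_induction _ (fun z => IsAlgebraic ℚ z) (fun _ _ h1 h2 => h1.mul h2) isAlgebraic_one ?_
  intro i _
  rw [Complex.exp_int_mul]
  obtain ⟨k, hk | hk⟩ := (m i).eq_nat_or_neg
  · rw [hk, zpow_natCast]; exact (hl i).pow k
  · rw [hk, zpow_neg, zpow_natCast]; exact ((hl i).pow k).inv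

end Pool.Agent.N733.TW
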