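import Pool.Agent.H301R2.SSE.Forms

/-!
# Planes over the algebraic numbers and multiplicative groups without algebraic elements

Let `G` be a multiplicative group of rank `r` of complex numbers in which only `1` is algebraic. A plane
over the field of algebraic numbers contains at most `r + 1` elements of each coset of `G`: dependent
elements of `G` in a plane would give a multiplicative relation between linear polynomials in a
transcendental number which are pairwise not proportional. By the strong six exponentials theorem the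
`y` for which `x₁ y` and `x₂ y` are linear forms in `1` and logarithms of algebraic numbers are
contained in a plane, if `x₂ / x₁` is transcendental.
-/

set_option autoImplicit false

namespace Pool.Agent.N733.TW

open Pool.Agent.H301R2.SSE Finset Polynomial

/-- strong six exponentials: three solutions are dependent -/
theorem dep {x₁ x₂ w₀ w₁ w₂ : ℂ} (hx : x₁ ≠ 0) (hb : Transcendental ℚ (x₂ / x₁))
    (h01 : Transcendental ℚ (w₁ / w₀)) (hw0 : w₀ ≠ 0)
    (h0 : x₁ * w₀ ∈ Lt) (h1 : x₁ * w₁ ∈ Lt) (h2 : x₁ * w₂ ∈ Lt)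
    (k0 : x₂ * w₀ ∈ Lt) (k1 : x₂ * w₁ ∈ Lt) (k2 : x₂ * w₂ ∈ Lt) :
    ∃ α β : QB, w₂ = (α : ℂ) * w₀ + (β : ℂ) * w₁ := by
  by_contra hcon
  push Not at hcon
  refine strong_six ![x₁, x₂] ![w₀, w₁, w₂] ?_ ?_ ?_
  · intro a c ha hc hac
    simp only [Matrix.cons_val_zero, Matrix.cons_val_one] at hac
    by_cases hc0 : c = 0
    · subst hc0
      refine ⟨?_, rfl⟩
      rw [zero_mul, add_zero] at hac
      exact (mul_eq_zero.1 hac).resolve_right hx
    · exfalso
      apply hb
      have : x₂ / x₁ = -a / c := by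
        field_simp
        linear_combination hac
      rw [this, div_eq_mul_inv]
      exact (ha.neg).mul hc.inv
  · intro c hc hsum
    rw [Fin.sum_univ_three] at hsum
    simp only [Matrix.cons_val_zero, Matrix.cons_val_one, Matrix.cons_val] at hsum
    have hc2 : c 2 = 0 := by
      by_contra hne
      refine hcon ⟨-(c 0) / c 2, ?_⟩ ⟨-(c 1) / c 2, ?_⟩ ?_
      · rw [mem_QB, div_eq_mul_inv]; exact (hc 0).neg.mul (hc 2).inv
      · rw [mem_QB, div_eq_mul_inv]; exact (hc 1).neg.mul (hc 2).inv
      · simp only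
        field_simp
        linear_combination hsum
    rw [hc2, zero_mul, add_zero] at hsum
    have hc1 : c 1 = 0 := by
      by_contra hne
      apply h01
      have : w₁ / w₀ = -(c 0) / c 1 := by
        field_simp
        linear_combination hsum
      rw [this, div_eq_mul_inv]
      exact (hc 0).neg.mul (hc 1).inv
    rw [hc1, zero_mul, add_zero] at hsum
    have hc0 : c 0 = 0 := (mul_eq_zero.1 hsum).resolve_right hw0
    intro j
    fin_cases j
    · exact hc0
    · exact hc1
    · exact hc2
  · intro i j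
    fin_cases i <;> fin_cases j
    · simpa using h0
    · simpa using h1
    · simpa using h2
    · simpa using k0
    · simpa using k1
    · simpa using k2

/-- powers with a sum as exponent -/
theorem prod_zpow_sum {ι : Type} (s : Finset ι) {u : ℂ} (hu : u ≠ 0) (m : ι → ℤ) :
    ∏ j ∈ s, u ^ m j = u ^ ∑ j ∈ s, m j := by
  classical
  induction s using Finset.induction_on with
  | empty => simp
  | insert j s hj ih => rw [prod_insert hj, sum_insert hj, ih, zpow_add₀ hu]

/-- one half of the next result -/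
theorem plane_pos {ι : Type} (s : Finset ι) (w : ι → ℂ) (α β : ι → QB) (u τ : ℂ)
    (hτ : Transcendental QB τ) (hu : u ≠ 0)
    (hw : ∀ i ∈ s, w i = u * ((α i : ℂ) + (β i : ℂ) * τ)) (hne : ∀ i ∈ s, w i ≠ 0)
    (htr : ∀ i ∈ s, ∀ j ∈ s, i ≠ j → Transcendental ℚ (w i / w j))
    (m : ι → ℤ) (hsum : ∑ i ∈ s, m i = 0) (hprod : ∏ i ∈ s, w i ^ m i = 1)
    (i : ι) (hi : i ∈ s) (hβ : β i ≠ 0) : m i ≤ 0 := by
  classical
  by_contra hpos
  push Not at hpos
  set P : QB[X] := ∏ j ∈ s, (C (α j) + C (β j) * X) ^ (m j).toNat with hP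
  set Q : QB[X] := ∏ j ∈ s, (C (α j) + C (β j) * X) ^ (-m j).toNat with hQ
  have hlin : ∀ j, aeval τ (C (α j) + C (β j) * X : QB[X]) = (α j : ℂ) + (β j : ℂ) * τ := by
    intro j
    rw [map_add, map_mul, aeval_C, aeval_C, aeval_X]
    rfl
  have hz : ∀ j ∈ s, ((α j : ℂ) + (β j : ℂ) * τ) ≠ 0 := by
    intro j hj h
    exact hne j hj (by rw [hw j hj, h, mul_zero])
  have hPQ : aeval τ P = aeval τ Q := by
    rw [hP, hQ, map_prod, map_prod]
    simp only [map_pow, hlin]
    have h1 : ∏ j ∈ s, ((α j : ℂ) + (β j : ℂ) * τ) ^ m j = 1 := by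
      have h2 : ∏ j ∈ s, w j ^ m j = u ^ (∑ j ∈ s, m j) * ∏ j ∈ s, ((α j : ℂ) + (β j : ℂ) * τ) ^ m j := by
        rw [← prod_zpow_sum s hu m, ← prod_mul_distrib]
        refine prod_congr rfl fun j hj => ?_
        rw [hw j hj, mul_zpow]
      rw [hprod, hsum, zpow_zero, one_mul] at h2
      exact h2.symm
    have h3 : ∏ j ∈ s, ((α j : ℂ) + (β j : ℂ) * τ) ^ m j =
        (∏ j ∈ s, ((α j : ℂ) + (β j : ℂ) * τ) ^ (m j).toNat) /
          ∏ j ∈ s, ((α j : ℂ) + (β j : ℂ) * τ) ^ (-m j).toNat := by
      rw [← prod_div_distrib]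
      refine prod_congr rfl fun j hj => ?_
      rw [eq_div_iff (pow_ne_zero _ (hz j hj)), ← zpow_natCast, ← zpow_natCast,
        ← zpow_add₀ (hz j hj)]
      congr 1
      omega
    rw [h3, div_eq_one_iff_eq (prod_ne_zero_iff.2 fun j hj => pow_ne_zero _ (hz j hj))] at h1
    exact h1
  have hPQ' : P = Q := (transcendental_iff_injective.1 hτ) hPQ
  set ρ : QB := -(α i) / β i with hρ
  have hPρ : P.eval ρ = 0 := by
    rw [hP, eval_prod]
    refine prod_eq_zero hi ?_
    rw [eval_pow, eval_add, eval_mul, eval_C, eval_C, eval_X]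
    have : α i + β i * ρ = 0 := by
      rw [hρ]; field_simp; ring
    rw [this]
    exact zero_pow (by omega)
  rw [hPQ', hQ, eval_prod, prod_eq_zero_iff] at hPρ
  obtain ⟨j, hj, hj0⟩ := hPρ
  rw [eval_pow, eval_add, eval_mul, eval_C, eval_C, eval_X] at hj0
  have hj1 : α j + β j * ρ = 0 := by
    by_contra h
    exact pow_ne_zero _ h hj0
  have hj2 : (-m j).toNat ≠ 0 := by
    intro h
    rw [h, pow_zero] at hj0
    exact one_ne_zero hj0
  have hji : j ≠ i := by
    rintro rfl
    omega
  apply htr j hj i hi hji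
  have h5 : α j = -(β j * ρ) := eq_neg_of_add_eq_zero_left hj1
  have h6 : α i = -(β i * ρ) := by rw [hρ]; field_simp
  have h7 : w j / w i = ((β j / β i : QB) : ℂ) := by
    have hzi := hz i hi
    rw [hw j hj, hw i hi, mul_div_mul_left _ _ hu, div_eq_iff hzi, h5, h6]
    have hβ' : ((β i : QB) : ℂ) ≠ 0 := by
      intro h
      exact hβ (by exact_mod_cast h)
    push_cast
    field_simp
  rw [h7]
  exact mem_QB.1 (β j / β i).2

/-- **Planes.** Elements of a plane over the algebraic numbers with pairwise transcendental quotients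
satisfy no multiplicative relation of degree `0`. -/
theorem plane {ι : Type} (s : Finset ι) (w : ι → ℂ) (α β : ι → QB) (u τ : ℂ)
    (hτ : Transcendental QB τ) (hu : u ≠ 0)
    (hw : ∀ i ∈ s, w i = u * ((α i : ℂ) + (β i : ℂ) * τ)) (hne : ∀ i ∈ s, w i ≠ 0)
    (htr : ∀ i ∈ s, ∀ j ∈ s, i ≠ j → Transcendental ℚ (w i / w j))
    (m : ι → ℤ) (hsum : ∑ i ∈ s, m i = 0) (hprod : ∏ i ∈ s, w i ^ m i = 1) :
    ∀ i ∈ s, m i = 0 := by
  classical
  have h1 : ∀ i ∈ s, β i ≠ 0 → m i = 0 := by
    intro i hi hβ
    refine le_antisymm (plane_pos s w α β u τ hτ hu hw hne htr m hsum hprod i hi hβ) ?_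
    have := plane_pos s w α β u τ hτ hu hw hne htr (fun j => -m j) (by
      rw [sum_neg_distrib, hsum, neg_zero]) (by
      simp only [zpow_neg]
      rw [prod_inv_distrib, hprod, inv_one]) i hi hβ
    omega
  intro i hi
  by_cases hβ : β i = 0
  · -- all other `m j` vanish
    have h2 : ∀ j ∈ s, j ≠ i → m j = 0 := by
      intro j hj hji
      apply h1 j hj
      intro hβj
      apply htr j hj i hi hji
      have h3 : w j / w i = ((α j / α i : QB) : ℂ) := by
        rw [hw j hj, hw i hi, hβj, hβ]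
        push_cast
        rw [zero_mul, add_zero, add_zero, mul_div_mul_left _ _ hu]
      rw [h3]
      exact mem_QB.1 (α j / α i).2
    rw [sum_eq_single i (fun j hj hji => h2 j hj hji) (fun h => absurd hi h)] at hsum
    exact hsum
  · exact h1 i hi hβ

end Pool.Agent.N733.TW
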