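import Pool.Agent.N733.TW.A

/-!
# Few elements of a coset of a group of finite rank in a plane
-/

set_option autoImplicit false

namespace Pool.Agent.N733.TW

open Pool.Agent.H301R2.SSE Finset Polynomial

/-- a transcendental number is transcendental over the algebraic numbers -/
theorem trans_QB {τ : ℂ} (h : Transcendental ℚ τ) : Transcendental QB τ := by
  intro hal
  apply h
  haveI : Algebra.IsAlgebraic ℚ QB := algebraicClosure.isAlgebraic ℚ ℂ
  exact (IsAlgebraic.restrictScalars ℚ hal)

/-- **Few solutions in a coset.** Let `E` be a homomorphism from an additive group of rank at most `r` to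
the nonzero complex numbers with transcendental values outside `0`. Let `x₂ / x₁` be transcendental. There
are no `r + 2` different `b` for which `x₁ y` and `x₂ y`, `y = v E(b)`, are both linear forms in `1` and
logarithms. -/
theorem few {Λ : Type} [AddCommGroup Λ] (E : Λ → ℂ) (hE : ∀ a b, E (a + b) = E a * E b)
    (hE0 : ∀ a, E a ≠ 0) (htr : ∀ a, a ≠ 0 → Transcendental ℚ (E a)) (r : ℕ)
    (hr : ∀ x : Fin (r + 1) → Λ, ∃ m : Fin (r + 1) → ℤ, m ≠ 0 ∧ ∑ i, m i • x i = 0)
    (x₁ x₂ v : ℂ) (hx : x₁ ≠ 0) (hx12 : Transcendental ℚ (x₂ / x₁)) (hv : v ≠ 0)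
    (b : Fin (r + 2) → Λ) (hb : Function.Injective b)
    (h1 : ∀ i, x₁ * (v * E (b i)) ∈ Lt) (h2 : ∀ i, x₂ * (v * E (b i)) ∈ Lt) : False := by
  classical
  -- `E` is a homomorphism
  have hE00 : E 0 = 1 := by
    have := hE 0 0
    rw [add_zero] at this
    have h3 := mul_left_cancel₀ (hE0 0) (show E 0 * E 0 = E 0 * 1 by rw [← this, mul_one])
    exact h3
  let F : Multiplicative Λ →* ℂ :=
    { toFun := fun a => E a.toAdd
      map_one' := hE00
      map_mul' := fun a c => hE a.toAdd c.toAdd }
  have hneg : ∀ a, E (-a) = (E a)⁻¹ := by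
    intro a
    have := hE (-a) a
    rw [neg_add_cancel, hE00] at this
    exact eq_inv_of_mul_eq_one_left this.symm
  have hsub : ∀ a c, E (a - c) = E a / E c := by
    intro a c
    rw [sub_eq_add_neg, hE, hneg, div_eq_mul_inv]
  have hnsmul : ∀ (n : ℕ) a, E (n • a) = E a ^ n := by
    intro n a
    induction n with
    | zero => rw [zero_smul, hE00, pow_zero]
    | succ n ih => rw [succ_nsmul, hE, ih, pow_succ]
  have hzsmul : ∀ (n : ℤ) a, E (n • a) = E a ^ n := by
    intro n a
    obtain ⟨k, rfl | rfl⟩ := n.eq_nat_or_neg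
    · rw [natCast_zsmul, hnsmul, zpow_natCast]
    · rw [neg_zsmul, hneg, natCast_zsmul, hnsmul, zpow_neg, zpow_natCast]
  have hsum : ∀ {ι : Type} (s : Finset ι) (f : ι → Λ), E (∑ i ∈ s, f i) = ∏ i ∈ s, E (f i) := by
    intro ι s f
    induction s using Finset.induction_on with
    | empty => rw [sum_empty, prod_empty, hE00]
    | insert j s hj ih => rw [sum_insert hj, prod_insert hj, hE, ih]
  -- the elements of the plane
  set w : Fin (r + 2) → ℂ := fun i => v * E (b i) with hw
  have hw0 : ∀ i, w i ≠ 0 := fun i => mul_ne_zero hv (hE0 _)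
  have hwr : ∀ i j, i ≠ j → Transcendental ℚ (w i / w j) := by
    intro i j hij
    have : w i / w j = E (b i - b j) := by
      rw [hsub, hw]
      simp only
      rw [mul_div_mul_left _ _ hv]
    rw [this]
    exact htr _ (sub_ne_zero.2 fun h => hij (hb h))
  have h01 : Transcendental ℚ (w 1 / w 0) := hwr 1 0 (by
    intro h
    have := congrArg Fin.val h
    simp at this)
  choose α β hαβ using fun i => dep (w₂ := w i) hx hx12 h01 (hw0 0) (h1 0) (h1 1) (h1 i) (h2 0) (h2 1) (h2 i)
  -- the relation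
  obtain ⟨m, hm0, hm⟩ := hr (fun i => b i.succ - b 0)
  set M : Fin (r + 2) → ℤ := Fin.cons (-∑ i, m i) m with hM
  have hM0 : ∑ i, M i = 0 := by
    rw [Fin.sum_univ_succ, hM]
    simp
  have hprod : ∏ i, w i ^ M i = 1 := by
    have h5 : ∏ i, w i ^ M i = v ^ (∑ i, M i) * E (∑ i, M i • b i) := by
      rw [hsum, ← prod_zpow_sum univ hv M, ← prod_mul_distrib]
      refine prod_congr rfl fun i _ => ?_
      rw [hw]
      simp only
      rw [mul_zpow, hzsmul]
    have h6 : ∑ i, M i • b i = 0 := by
      rw [Fin.sum_univ_succ, hM]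
      simp only [Fin.cons_zero, Fin.cons_succ]
      rw [← hm]
      simp only [smul_sub, sum_sub_distrib, neg_smul, sum_smul]
      abel
    rw [h5, hM0, h6, hE00, zpow_zero, mul_one]
  have hall := plane univ w α β (w 0) (w 1 / w 0) (trans_QB h01) (hw0 0) (by
    intro i _
    rw [hαβ i]
    have := hw0 0
    field_simp) (fun i _ => hw0 i) (fun i _ j _ hij => hwr i j hij) M hM0 hprod
  apply hm0
  funext i
  have := hall i.succ (mem_univ _)
  rw [hM] at this
  simpa using this

/-- any `r + 1` rational vectors with `r` coordinates satisfy an integral relation -/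
theorem rel (r : ℕ) (x : Fin (r + 1) → (Fin r → ℚ)) :
    ∃ m : Fin (r + 1) → ℤ, m ≠ 0 ∧ ∑ i, m i • x i = 0 := by
  have h1 : ¬ LinearIndependent ℤ x := by
    intro h
    have h2 : LinearIndependent ℚ x := (LinearIndependent.iff_fractionRing ℤ ℚ).1 h
    have h3 := h2.fintype_card_le_finrank
    simp at h3
  rw [Fintype.not_linearIndependent_iff] at h1
  obtain ⟨m, hm, i, hi⟩ := h1
  exact ⟨m, fun h => hi (by rw [h]; rfl), hm⟩

end Pool.Agent.N733.TW
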