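import Pool.Agent.N733.TW.B

/-!
# Counting the elements of a finite part of a coset in the space of linear forms
-/

set_option autoImplicit false

namespace Pool.Agent.N733.TW

open Pool.Agent.H301R2.SSE Finset
open scoped Pointwise

/-- counting by differences -/
theorem count_diff {Λ : Type} [AddCommGroup Λ] [DecidableEq Λ] (P B : Finset Λ) (hPB : P ⊆ B)
    (K : ℕ) (hK : ∀ k, k ≠ 0 → (P.filter fun b => b + k ∈ P).card ≤ K) :
    P.card * P.card ≤ P.card + K * ((B - B).card - 1) := by
  classical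
  rcases P.eq_empty_or_nonempty with hP | ⟨p₀, hp₀⟩
  · subst hP; simp
  have h0 : (0 : Λ) ∈ B - B := by
    rw [mem_sub]
    exact ⟨p₀, hPB hp₀, p₀, hPB hp₀, sub_self _⟩
  have h1 : P.offDiag.card ≤ K * ((B - B).erase 0).card := by
    refine card_le_mul_card_image_of_maps_to (f := fun p : Λ × Λ => p.2 - p.1) ?_ K ?_
    · intro p hp
      rw [mem_offDiag] at hp
      rw [mem_erase, mem_sub]
      exact ⟨sub_ne_zero.2 (Ne.symm hp.2.2), p.2, hPB hp.2.1, p.1, hPB hp.1, rfl⟩
    · intro k hk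
      rw [mem_erase] at hk
      refine le_trans (card_le_card_of_injOn (fun p : Λ × Λ => p.1) ?_ ?_) (hK k hk.1)
      · intro p hp
        have hp' := mem_filter.1 (mem_coe.1 hp)
        rw [mem_offDiag] at hp'
        refine mem_coe.2 (mem_filter.2 ⟨hp'.1.1, ?_⟩)
        have : p.1 + k = p.2 := by rw [← hp'.2]; abel
        rw [this]
        exact hp'.1.2.1
      · intro p hp q hq hpq
        have hp' := (mem_filter.1 (mem_coe.1 hp)).2
        have hq' := (mem_filter.1 (mem_coe.1 hq)).2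
        simp only at hpq hp' hq'
        refine Prod.ext hpq ?_
        have e1 : p.2 = p.1 + k := by rw [← hp']; abel
        have e2 : q.2 = q.1 + k := by rw [← hq']; abel
        rw [e1, e2, hpq]
  rw [offDiag_card, card_erase_of_mem h0] at h1
  omega

/-- **Counting in finite sets.** -/
theorem count {Λ : Type} [AddCommGroup Λ] [DecidableEq Λ] (E : Λ → ℂ)
    (hE : ∀ a b, E (a + b) = E a * E b)
    (hE0 : ∀ a, E a ≠ 0) (htr : ∀ a, a ≠ 0 → Transcendental ℚ (E a)) (r : ℕ)
    (hr : ∀ x : Fin (r + 1) → Λ, ∃ m : Fin (r + 1) → ℤ, m ≠ 0 ∧ ∑ i, m i • x i = 0)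
    (v : ℂ) (hv : v ≠ 0) (P B : Finset Λ) (hPB : P ⊆ B) (hP : ∀ b ∈ P, v * E b ∈ Lt) :
    P.card * P.card ≤ P.card + (r + 1) * ((B - B).card - 1) := by
  refine count_diff P B hPB (r + 1) fun k hk => ?_
  by_contra hcon
  push Not at hcon
  obtain ⟨Q, hQ, hQc⟩ := exists_subset_card_eq (Nat.succ_le_of_lt hcon)
  set e := Q.equivFinOfCardEq hQc with he
  refine few E hE hE0 htr r hr 1 (E k) v one_ne_zero (by rw [div_one]; exact htr k hk) hv
    (fun i => (e.symm i : Λ)) (fun i j hij => e.symm.injective (Subtype.ext hij)) ?_ ?_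
  · intro i
    have := (mem_filter.1 (hQ (e.symm i).2)).1
    rw [one_mul]
    exact hP _ this
  · intro i
    have := (mem_filter.1 (hQ (e.symm i).2)).2
    have h3 := hP _ this
    rw [hE] at h3
    have h4 : E k * (v * E (e.symm i : Λ)) = v * (E (e.symm i : Λ) * E k) := by ring
    rw [h4]
    exact h3

end Pool.Agent.N733.TW
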