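import Pool.Agent.N733.TW.D

/-!
# Towers of height three and integers composed of given primes
-/

set_option autoImplicit false

namespace Pool.Agent.N733.TW

open Pool.Agent.H301R2.SSE Finset
open scoped Pointwise

/-- the logarithms of different primes are independent -/
theorem log_primes {B : ℕ} (p : Fin B → ℕ) (hp : ∀ b, (p b).Prime) (hinj : Function.Injective p) (n : Fin B → ℤ)
    (h : ∑ b, (n b : ℝ) * Real.log (p b) = 0) : n = 0 := by
  have h1 : ∑ b, (((n b).toNat : ℕ) : ℝ) * Real.log (p b) = ∑ b, (((-n b).toNat : ℕ) : ℝ) * Real.log (p b) := by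
    rw [← sub_eq_zero, ← Finset.sum_sub_distrib, ← h]
    refine Finset.sum_congr rfl fun b _ => ?_
    rw [← sub_mul]
    congr 1
    have h2 : (((n b).toNat : ℕ) : ℤ) - (((-n b).toNat : ℕ) : ℤ) = n b := by omega
    exact_mod_cast congrArg (Int.cast : ℤ → ℝ) h2
  have hpos : ∀ e : Fin B → ℕ, 0 < ∏ b, p b ^ e b := fun e => Finset.prod_pos fun b _ => pow_pos (hp b).pos _
  have hlog : ∀ e : Fin B → ℕ, ∑ b, ((e b : ℕ) : ℝ) * Real.log (p b) = Real.log ((∏ b, p b ^ e b : ℕ) : ℝ) := by
    intro e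
    push_cast
    rw [Real.log_prod fun b _ => pow_ne_zero _ (Nat.cast_ne_zero.2 (hp b).ne_zero)]
    exact Finset.sum_congr rfl fun b _ => (Real.log_pow _ _).symm
  rw [hlog, hlog] at h1
  have h2 := Real.log_injOn_pos (Set.mem_Ioi.2 (Nat.cast_pos.2 (hpos _))) (Set.mem_Ioi.2 (Nat.cast_pos.2 (hpos _))) h1
  have h3 : ∏ b, p b ^ (n b).toNat = ∏ b, p b ^ (-n b).toNat := by exact_mod_cast h2
  have hfac : ∀ (e : Fin B → ℕ) (b : Fin B), (∏ b, p b ^ e b).factorization (p b) = e b := by
    intro e b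
    rw [Nat.factorization_prod fun b _ => pow_ne_zero _ (hp b).ne_zero, Finsupp.finsetSum_apply,
      Finset.sum_eq_single b]
    · rw [Nat.factorization_pow, Finsupp.smul_apply, (hp b).factorization_self, smul_eq_mul, mul_one]
    · intro b' _ hb'
      rw [Nat.factorization_pow, Finsupp.smul_apply, (hp b').factorization, Finsupp.single_apply,
        if_neg fun h => hb' (hinj h), smul_zero]
    · intro h
      exact absurd (Finset.mem_univ _) h
  funext b
  have h4 := hfac (fun b => (n b).toNat) b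
  rw [h3, hfac (fun b => (-n b).toNat) b] at h4
  simp only [Pi.zero_apply]
  omega

/-- the logarithm of a tower -/
theorem tower_log {r : ℕ} {a : ℝ} (ha : 0 < a) (α : Fin r → ℝ) (hα : ∀ i, 0 < α i) (c : ℝ)
    (b : Fin r → ℚ) :
    ((Real.log (a ^ ((∏ i, α i ^ (b i : ℝ)) ^ c)) : ℝ) : ℂ) =
      ((Real.log a : ℝ) : ℂ) * El (fun i => (c : ℂ) * ((Real.log (α i) : ℝ) : ℂ)) b := by
  have h1 : (∏ i, α i ^ (b i : ℝ)) ^ c = Real.exp (∑ i, (b i : ℝ) * (c * Real.log (α i))) := by
    have hpos : 0 < ∏ i, α i ^ (b i : ℝ) := prod_pos fun i _ => Real.rpow_pos_of_pos (hα i) _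
    rw [Real.rpow_def_of_pos hpos, Real.log_prod (fun i _ => (Real.rpow_pos_of_pos (hα i) _).ne')]
    congr 1
    rw [sum_mul]
    refine sum_congr rfl fun i _ => ?_
    rw [Real.log_rpow (hα i)]; ring
  rw [Real.log_rpow ha, h1, mul_comm]
  unfold El
  push_cast
  rfl

/-- the powers `α ^ c` are multiplicatively independent modulo the algebraic numbers -/
theorem tower_ind {r : ℕ} (α : Fin r → ℝ) (hα : ∀ i, 0 < α i) (hal : ∀ i, IsAlgebraic ℚ (α i))
    (hind : ∀ m : Fin r → ℤ, m ≠ 0 → ∏ i, α i ^ m i ≠ 1) (c : ℝ) (hc : IsAlgebraic ℚ c)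
    (hci : Irrational c) (m : Fin r → ℤ) (hm : m ≠ 0) :
    Transcendental ℚ (Complex.exp (∑ i, (m i : ℂ) * ((c : ℂ) * ((Real.log (α i) : ℝ) : ℂ)))) := by
  refine gs_family (fun i => ((Real.log (α i) : ℝ) : ℂ)) (c : ℂ) ?_ ?_ ?_ ?_ m hm
  · exact hc.algebraMap (A := ℂ)
  · intro q hq
    apply hci
    refine ⟨q, ?_⟩
    exact_mod_cast hq.symm
  · intro i
    rw [← Complex.ofReal_exp, Real.exp_log (hα i)]
    exact (hal i).algebraMap (A := ℂ)
  · intro k hk h0
    apply hind k hk
    have h1 : ∑ i, (k i : ℝ) * Real.log (α i) = 0 := by exact_mod_cast h0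
    have hpos : 0 < ∏ i, α i ^ k i := prod_pos fun i _ => zpow_pos (hα i) _
    have h2 : Real.log (∏ i, α i ^ k i) = 0 := by
      rw [Real.log_prod (fun i _ => (zpow_pos (hα i) _).ne'), ← h1]
      refine sum_congr rfl fun i _ => ?_
      rw [Real.log_zpow]
    exact Real.eq_one_of_pos_of_log_eq_zero hpos h2

/-- differences of a box -/
theorem box_sub (r M : ℕ) (hM : 0 < M) :
    (Fintype.piFinset (fun _ : Fin r => (range M).image (Nat.cast : ℕ → ℚ)) -
      Fintype.piFinset (fun _ : Fin r => (range M).image (Nat.cast : ℕ → ℚ))).card ≤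
        (2 * M - 1) ^ r := by
  have h1 : (Fintype.piFinset (fun _ : Fin r => (range M).image (Nat.cast : ℕ → ℚ)) -
      Fintype.piFinset (fun _ : Fin r => (range M).image (Nat.cast : ℕ → ℚ))) ⊆
        Fintype.piFinset (fun _ : Fin r => (Ioo (-(M : ℤ)) M).image (Int.cast : ℤ → ℚ)) := by
    intro z hz
    rw [mem_sub] at hz
    obtain ⟨x, hx, y, hy, rfl⟩ := hz
    rw [Fintype.mem_piFinset] at hx hy ⊢
    intro i
    obtain ⟨s, hs, hs'⟩ := mem_image.1 (hx i)
    obtain ⟨t, ht, ht'⟩ := mem_image.1 (hy i)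
    rw [mem_range] at hs ht
    refine mem_image.2 ⟨(s : ℤ) - t, ?_, ?_⟩
    · rw [mem_Ioo]; omega
    · rw [Pi.sub_apply, ← hs', ← ht']
      push_cast
      ring
  refine (card_le_card h1).trans ?_
  rw [Fintype.card_piFinset, prod_const, card_univ, Fintype.card_fin]
  refine Nat.pow_le_pow_left (card_image_le.trans ?_) r
  rw [Int.card_Ioo]
  omega

/-- **Integers composed of given primes.** -/
theorem sint (S : Finset ℕ) (hS : ∀ p ∈ S, p.Prime) (v c : ℂ) (hv : v ≠ 0)
    (hc : IsAlgebraic ℚ c) (hci : ∀ r : ℚ, c ≠ r) (x : ℕ) (T : Finset ℕ)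
    (hT : ∀ n ∈ T, 0 < n ∧ n ≤ x ∧ n.primeFactors ⊆ S)
    (hbad : ∀ n ∈ T, v * Complex.exp (c * ((Real.log n : ℝ) : ℂ)) ∈ Lt) :
    T.card ^ 2 ≤ T.card + (S.card + 1) * ((2 * Nat.log 2 x + 1) ^ S.card - 1) := by
  classical
  set r := S.card with hr
  set e : Fin r ≃ S := (S.equivFin).symm with he
  set p : Fin r → ℕ := fun i => (e i : ℕ) with hp
  have hpP : ∀ i, (p i).Prime := fun i => hS _ (e i).2
  have hpI : Function.Injective p := fun i j hij => e.injective (Subtype.ext hij)
  set lam : Fin r → ℂ := fun i => c * ((Real.log (p i) : ℝ) : ℂ) with hlam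
  have htr : ∀ m : Fin r → ℤ, m ≠ 0 → Transcendental ℚ (Complex.exp (∑ i, (m i : ℂ) * lam i)) := by
    intro m hm
    refine gs_family (fun i => ((Real.log (p i) : ℝ) : ℂ)) c hc hci ?_ ?_ m hm
    · intro i
      rw [← Complex.ofReal_exp, Real.exp_log (by exact_mod_cast (hpP i).pos)]
      push_cast
      exact isAlgebraic_natCast _
    · intro k hk h0
      apply hk
      refine log_primes p hpP hpI k ?_
      exact_mod_cast h0
  set b : ℕ → (Fin r → ℚ) := fun n i => (n.factorization (p i) : ℚ) with hb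
  have hEl : ∀ n ∈ T, El lam (b n) = Complex.exp (c * ((Real.log n : ℝ) : ℂ)) := by
    intro n hn
    obtain ⟨hn0, hnx, hnS⟩ := hT n hn
    unfold El
    congr 1
    have h1 : Real.log n = ∑ i, (n.factorization (p i) : ℝ) * Real.log (p i) := by
      rw [Real.log_nat_eq_sum_factorization, Finsupp.sum]
      have h2 : ∑ q ∈ n.factorization.support, (n.factorization q : ℝ) * Real.log q =
          ∑ q ∈ S, (n.factorization q : ℝ) * Real.log q := by
        refine sum_subset (by rw [Nat.support_factorization]; exact hnS) ?_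
        intro q _ hq
        rw [Finsupp.notMem_support_iff.1 hq]
        simp
      rw [h2, ← sum_coe_sort S, ← Equiv.sum_comp e]
    rw [h1]
    push_cast
    rw [mul_sum]
    refine sum_congr rfl fun i _ => ?_
    rw [hlam, hb]
    simp only
    push_cast
    ring
  set M := Nat.log 2 x + 1 with hM
  have hPB : T.image b ⊆ Fintype.piFinset (fun _ : Fin r => (range M).image (Nat.cast : ℕ → ℚ)) := by
    intro z hz
    obtain ⟨n, hn, rfl⟩ := mem_image.1 hz
    obtain ⟨hn0, hnx, hnS⟩ := hT n hn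
    rw [Fintype.mem_piFinset]
    intro i
    refine mem_image.2 ⟨n.factorization (p i), ?_, rfl⟩
    rw [mem_range, hM]
    have h1 : p i ^ n.factorization (p i) ≤ n := Nat.le_of_dvd hn0 (Nat.ordProj_dvd n (p i))
    have h2 : 2 ^ n.factorization (p i) ≤ x :=
      (Nat.pow_le_pow_left (hpP i).two_le _).trans (h1.trans hnx)
    have := Nat.le_log_of_pow_le (by norm_num : 1 < 2) h2
    omega
  have hinj : Set.InjOn b T := by
    intro n hn n' hn' hnn
    obtain ⟨hn0, hnx, hnS⟩ := hT n hn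
    obtain ⟨hn0', hnx', hnS'⟩ := hT n' hn'
    refine Nat.eq_of_factorization_eq hn0.ne' hn0'.ne' fun q => ?_
    by_cases hq : q ∈ S
    · have h1 := congrFun hnn (e.symm ⟨q, hq⟩)
      rw [hb] at h1
      simp only [hp, Equiv.apply_symm_apply] at h1
      exact_mod_cast h1
    · rw [Finsupp.notMem_support_iff.1 (fun h => hq (hnS (by
        rwa [Nat.support_factorization] at h))), Finsupp.notMem_support_iff.1 (fun h => hq (hnS' (by
        rwa [Nat.support_factorization] at h)))]
  have h5 := count_El lam htr v hv (T.image b) _ hPB (by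
    intro z hz
    obtain ⟨n, hn, rfl⟩ := mem_image.1 hz
    rw [hEl n hn]
    exact hbad n hn)
  rw [card_image_of_injOn hinj] at h5
  refine h5.trans ?_
  have h6 := box_sub r M (by omega)
  have h7 : 2 * M - 1 = 2 * Nat.log 2 x + 1 := by omega
  rw [h7] at h6
  gcongr

end Pool.Agent.N733.TW
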